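import Pool.Agent.H44.EHN.Stmts

/-! Row PIG of board ehn (MP_48f148_nt). -/

set_option autoImplicit false

open Classical

namespace EHN

/-- **PIG** -/
theorem pig_thm : PIGStmt := by
  intro L E T ea eb hle hcard
  have hmaps : ∀ s ∈ (Finset.range L).powerset,
      (fun m : T => ∑ i ∈ Finset.range L, (if i ∈ s then eb i m else ea i m)) ∈
        Fintype.piFinset (fun _ : T => Finset.range (L * E + 1)) := by
    intro s _
    rw [Fintype.mem_piFinset]
    intro m
    rw [Finset.mem_range, Nat.lt_succ_iff]
    calc ∑ i ∈ Finset.range L, (if i ∈ s then eb i (m : ℕ) else ea i (m : ℕ))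
        ≤ ∑ i ∈ Finset.range L, E := by
          refine Finset.sum_le_sum fun i hi => ?_
          have h := hle i (Finset.mem_range.1 hi) m m.2
          split_ifs
          · exact h.2
          · exact h.1
      _ = L * E := by simp
  have hc : (Fintype.piFinset (fun _ : T => Finset.range (L * E + 1))).card <
      ((Finset.range L).powerset).card := by
    rw [Fintype.card_piFinset, Finset.card_powerset, Finset.card_range]
    simpa using hcard
  obtain ⟨s, hs, s', hs', hne, heq⟩ := Finset.exists_ne_map_eq_of_card_lt_of_maps_to hc hmaps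
  refine ⟨s, s', Finset.mem_powerset.1 hs, Finset.mem_powerset.1 hs', hne, ?_⟩
  intro m hm
  exact congrFun heq ⟨m, hm⟩

end EHN
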